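import Pool.Agent.U536.CF.Sc
import Pool.Agent.Results.MP_725b61_nt.MonomialsInThreeNumbers

/-!
# Powers of `e`, of `1 / π` and of arbitrary transcendental numbers, with exponents near integers with a large common
factor with a value of a multiplicative function, are no linear forms in periods of one variable

`Forms γ` is the space of all linear combinations, with algebraic coefficients, of the integrals of rational functions of
one variable with algebraic coefficients over compact intervals with algebraic end points, of all logarithms of algebraic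
numbers, and of `g` arbitrary complex numbers `γ_0, …, γ_(g-1)`. If `1 / π` (or `e`) is a period, all its powers are
periods; here it is shown that they are not of this simple kind.

Let `f` be a positive multiplicative function of at most polynomial growth such that `f p ≤ M p` for the large primes
`p`, with different values at different large primes; for example Euler's function or the sum of the divisors. Let `G`
have steps bounded below by a positive constant and growth at most `v^d`, for example `α v^d`. Let `B < 1`, `0 ≤ c <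
2 B - 1` and `d / 2 + κ < ρ ≤ 1`. For all large `N`, for every transcendental number `t` and all `γ_0, …, γ_(g-1)` (the
bound for `N` depends only on `g`, not on `t` and `γ`), for all `m ≤ N` but `N exp (-(log N)^c)`, for EVERY integer `w ≥
exp ((log N)^B)` with `gcd(w, f(m)) ≥ w^ρ` and EVERY integer `n ≥ 1` with `|n - G w| ≤ w ^ κ`, the number `t ^ n` is not
in `Forms γ`. The integers `w` include all large divisors of `f(m)` and their multiples by small integers; for Euler's
function, the orders of the elements of the group of units modulo `m`.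

Proof. The file `MonomialsInThreeNumbers` of the starting library bounds the number of the exceptional exponents `n ≤ N`
by `2 √N + 1 + g`. Write `m = k' u` with `u` squarefree and composed of primes larger than `N^(1/J)`, `J = (log N)^s`,
and `k' ≤ exp (4 (log N)^s)`; this is possible for all `m ≤ N` but very few. If `v ∣ f(k') f(u)`, then the number of such
`u ≤ N / k'` is at most `N / (k' v')` times `(log N)^O(J)` times the number `τ_J(v')` of the ordered factorizations of
`v'` into `J` factors, `v' = v / gcd(v, f(k'))`. The inequality `τ_J^q ≤ τ_K` for `K ≥ J^q` and Hölder's inequality bound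
the sum over the sparse set of the exceptional `v`. The large divisors of the values of multiplicative functions form a
set of density zero and are taken with very large multiplicities, and so the theorem does not follow from the count of
the exceptional exponents alone.
-/

set_option autoImplicit false

namespace Pool.Agent.Results.MP_725b61_nt.CommonFactors

open Pool.Agent.N733.TG (LM Expanding lm_totient lm_sigma expanding_pow)
open Pool.Agent.U536.CF (Common common_scale_nat common_of_dvd common_order)
open Pool.Agent.TH379.PER (Forms)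

/-- the number of the exceptional exponents -/
lemma count {g : ℕ} (γ : Fin g → ℂ) {t : ℂ} (ht : Transcendental ℚ t) (M : ℕ) (hM : 1 ≤ M) :
    ({n : ℕ | 1 ≤ n ∧ n ≤ M ∧ t ^ n ∈ Forms γ}.ncard : ℝ) ≤ (3 + g) * (M : ℝ) ^ (1 / 2 : ℝ) := by
  have h1 := (MonomialsInThreeNumbers.result g γ).2.2.1 t ht M
  have h2 : {n : ℕ | 1 ≤ n ∧ n ≤ M ∧ t ^ n ∈ Forms γ}.ncard ≤ {n : ℕ | n ≤ M ∧ t ^ n ∈ Forms γ}.ncard :=
    Set.ncard_le_ncard (fun n hn => ⟨hn.2.1, hn.2.2⟩) ((Set.finite_Iic M).subset fun n hn => hn.1)
  have h3 : ({n : ℕ | 1 ≤ n ∧ n ≤ M ∧ t ^ n ∈ Forms γ}.ncard : ℝ) ≤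
      ({n : ℕ | n ≤ M ∧ t ^ n ∈ Forms γ}.ncard : ℝ) := by exact_mod_cast h2
  have h4 : (1 : ℝ) ≤ Real.sqrt M := by
    rw [Real.one_le_sqrt]
    exact_mod_cast hM
  have h5 : (0 : ℝ) ≤ g := Nat.cast_nonneg g
  rw [← Real.sqrt_eq_rpow]
  nlinarith

/-- **Powers with exponents near integers with a large common factor with a value of a multiplicative function are no
linear forms in periods of one variable.** Let `f` be multiplicative and positive, of at most polynomial growth, with
`f p ≤ M p` at the large primes, and injective there (`LM`). Let `G` have steps `≥ a > 0` and growth at most `v^d`. Let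
`B < 1`, `0 ≤ c < 2 B - 1`, `κ ≥ 0` and `d / 2 + κ < ρ ≤ 1`. For all large `N`, for all transcendental `t` and all `γ`,
for all `m ≤ N` but `N exp (-(log N)^c)`, for EVERY integer `w ≥ exp ((log N)^B)` with `gcd(w, f(m)) ≥ w^ρ` and EVERY
integer `n ≥ 1` with `|n - G w| ≤ w ^ κ`: `t ^ n` is not in `Forms γ`. Examples of `t` are `e` and `1 / π`. All divisors
`w ≥ exp ((log N)^B)` of `f(m)` are such integers `w`, and for Euler's function the orders `≥ exp ((log N)^B)` of the
units modulo `m`. Euler's function and the sum of the divisors are examples of `f`, and `α v^d` with `α > 0`, `d ≥ 1` is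
an example of `G`. -/
theorem result :
    (∀ (g : ℕ) (f : ℕ → ℕ), LM f → ∀ (G : ℕ → ℝ) (d : ℝ), Expanding G d →
      ∀ κ ρ B c : ℝ, 0 ≤ κ → d / 2 + κ < ρ → ρ ≤ 1 → B < 1 → 0 ≤ c → c < 2 * B - 1 →
      ∃ N₀ : ℕ, ∀ N : ℕ, N₀ ≤ N → ∀ (t : ℂ) (γ : Fin g → ℂ), Transcendental ℚ t →
        ({m : ℕ | 1 ≤ m ∧ m ≤ N ∧ ¬ ∀ w : ℕ, Common f B ρ N m w → ∀ n : ℕ, 1 ≤ n → |(n : ℝ) - G w| ≤ (w : ℝ) ^ κ →
          t ^ n ∉ Forms γ}.ncard : ℝ) ≤ N * Real.exp (-(Real.log N ^ c))) ∧
    (Transcendental ℚ (Complex.exp 1) ∧ Transcendental ℚ (1 / (Real.pi : ℂ))) ∧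
    (LM Nat.totient ∧ LM (fun m => ∑ d ∈ m.divisors, d)) ∧
    (∀ α d : ℝ, 0 < α → 1 ≤ d → Expanding (fun v => α * (v : ℝ) ^ d) d) ∧
    (∀ (f : ℕ → ℕ) (B ρ : ℝ) (N m w : ℕ), ρ ≤ 1 → Real.exp (Real.log N ^ B) ≤ (w : ℝ) → w ∣ f m → Common f B ρ N m w) ∧
    ∀ (B ρ : ℝ) (N m : ℕ), ρ ≤ 1 → ∀ x : (ZMod m)ˣ, Real.exp (Real.log N ^ B) ≤ (orderOf x : ℝ) →
      Common Nat.totient B ρ N m (orderOf x) := by
  refine ⟨?_, ⟨Pool.Agent.H340R2.LW.transcendental_exp_one_complex, fun h => ?_⟩, ⟨lm_totient, lm_sigma⟩,
    fun α d hα hd => expanding_pow hα hd, fun f B ρ N m w hρ hw hd => common_of_dvd hρ hw hd,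
    fun B ρ N m hρ x hx => common_order hρ x hx⟩
  · intro g f hf G d hG κ ρ B c hκ h1 hρ hB hc hcb
    obtain ⟨N₁, hN₁⟩ := common_scale_nat (s := 1 / 2) (C := 3 + g) (by norm_num) 1 0 hf hG hκ (by linarith) hρ hB hc hcb
    exact ⟨N₁, fun N hN t γ ht => hN₁ (fun _ n => t ^ n ∈ Forms γ) (fun n => t ^ n ∈ Forms γ)
      (fun M hM => count γ ht M hM) (fun n M _ _ _ _ h => h) N hN⟩
  · have h1 := h.inv
    rw [one_div, inv_inv] at h1
    exact Pool.Agent.H340R2.LW.transcendental_pi_complex h1

end Pool.Agent.Results.MP_725b61_nt.CommonFactors
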