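import Pool.Agent.U536.DS.Sc
import Pool.Agent.Results.MP_725b61_nt.MonomialsInThreeNumbers

/-!
# Powers of `e`, of `1 / π` and of arbitrary transcendental numbers, with exponents near the integral combinations of two
divisors of a value of a multiplicative function, are no linear forms in periods of one variable

`Forms γ` is the space of all linear combinations, with algebraic coefficients, of the integrals of rational functions of
one variable with algebraic coefficients over compact intervals with algebraic end points, of all logarithms of algebraic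
numbers, and of `g` arbitrary complex numbers `γ_0, …, γ_(g-1)`. If `1 / π` (or `e`) is a period, all its powers are
periods; here it is shown that they are not of this simple kind.

Let `f` be a positive multiplicative function of at most polynomial growth such that `f p ≤ M p` for the large primes
`p`, with different values at different large primes; for example Euler's function or the sum of the divisors. Let `G`
have steps bounded below by a positive constant and growth at most `v^d`, for example `α v^d`. Let `B < 1`, `0 ≤ c <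
2 B - 1`, `θ < B` and `d / 2 + κ < 1`. For all large `N`, for every transcendental number `t` and all `γ_0, …, γ_(g-1)`
(the bound for `N` depends only on `g`, not on `t` and `γ`), for all `m ≤ N` but `N exp (-(log N)^c)`, for EVERY integer
`w ≥ exp ((log N)^B)` of the form `w = u s + v s'` with divisors `s`, `s'` of `f(m)` and integers `|u|, |v| ≤
exp ((log N)^θ)` and EVERY integer `n ≥ 1` with `|n - G w| ≤ w ^ κ`, the number `t ^ n` is not in `Forms γ`. The integers
`w` include all large divisors of `f(m)` and the large sums and differences of ANY two divisors of `f(m)`; for Euler's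
function, those of the orders of any two units modulo `m`.

Proof. The file `MonomialsInThreeNumbers` of the starting library bounds the number of the exceptional exponents `n ≤ N`
by `2 √N + 1 + g`. Write `m = k' u` with `u` squarefree and composed of primes larger than `N^(1/J)`, `J = (log N)^s`,
and `k' ≤ exp (4 (log N)^s)`; this is possible for all `m ≤ N` but very few. If `v ∣ f(k') f(u)`, then the number of such
`u ≤ N / k'` is at most `N / (k' v')` times `(log N)^O(J)` times the number `τ_J(v')` of the ordered factorizations of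
`v'` into `J` factors, `v' = v / gcd(v, f(k'))`. Take for `v` the least common multiple of `s` and `s'`: the sum of
`1 / [s, s']` over the pairs `s, s' ≤ X` with `u s + v s' = w` is at most `4 U (1 + log X) τ(w) / w` if `|u|, |v| ≤ U`;
the inequality `τ_J^q ≤ τ_K` for `K ≥ J^q` and Hölder's inequality bound the sum over the pairs with exceptional `w`. The
integers of the hand-in `CommonFactors` of this page have a large common factor with `f(m)`; the sums and differences of
two divisors of `f(m)` have in general none.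
-/

set_option autoImplicit false

namespace Pool.Agent.Results.MP_725b61_nt.DivisorSums

open Pool.Agent.N733.TG (LM Expanding lm_totient lm_sigma expanding_pow)
open Pool.Agent.U536.DS (Comb comb_scale_nat comb_pm comb_orders)
open Pool.Agent.TH379.PER (Forms)

/-- the number of the exceptional exponents -/
lemma count {g : ℕ} (γ : Fin g → ℂ) {t : ℂ} (ht : Transcendental ℚ t) (M : ℕ) (hM : 1 ≤ M) :
    ({n : ℕ | 1 ≤ n ∧ n ≤ M ∧ t ^ n ∈ Forms γ}.ncard : ℝ) ≤ (3 + g) * (M : ℝ) ^ (1 / 2 : ℝ) := by
  have h1 := (MonomialsInThreeNumbers.result g γ).2.2.1 t ht M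
  have h2 : {n : ℕ | 1 ≤ n ∧ n ≤ M ∧ t ^ n ∈ Forms γ}.ncard ≤ {n : ℕ | n ≤ M ∧ t ^ n ∈ Forms γ}.ncard :=
    Set.ncard_le_ncard (fun n hn => ⟨hn.2.1, hn.2.2⟩) ((Set.finite_Iic M).subset fun n hn => hn.1)
  have h3 : ({n : ℕ | 1 ≤ n ∧ n ≤ M ∧ t ^ n ∈ Forms γ}.ncard : ℝ) ≤
      ({n : ℕ | n ≤ M ∧ t ^ n ∈ Forms γ}.ncard : ℝ) := by exact_mod_cast h2
  have h4 : (1 : ℝ) ≤ Real.sqrt M := by
    rw [Real.one_le_sqrt]
    exact_mod_cast hM
  have h5 : (0 : ℝ) ≤ g := Nat.cast_nonneg g
  rw [← Real.sqrt_eq_rpow]
  nlinarith

/-- **Powers with exponents near the integral combinations of two divisors of a value of a multiplicative function are no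
linear forms in periods of one variable.** Let `f` be multiplicative and positive, of at most polynomial growth, with
`f p ≤ M p` at the large primes, and injective there (`LM`). Let `G` have steps `≥ a > 0` and growth at most `v^d`. Let
`B < 1`, `0 ≤ c < 2 B - 1`, `κ ≥ 0`, `θ < B` and `d / 2 + κ < 1`. For all large `N`, for all transcendental `t` and all
`γ`, for all `m ≤ N` but `N exp (-(log N)^c)`, for EVERY integer `w ≥ exp ((log N)^B)` of the form `w = u s + v s'` with
divisors `s`, `s'` of `f(m)` and integers `|u|, |v| ≤ exp ((log N)^θ)` and EVERY integer `n ≥ 1` with `|n - G w| ≤ w ^ κ`: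
`t ^ n` is not in `Forms γ`. Examples of `t` are `e` and `1 / π`. All the sums and differences `≥ exp ((log N)^B)` of two
divisors of `f(m)` are such integers `w`, and for Euler's function those of the orders of two units modulo `m`. Euler's function and the sum of the divisors are examples of `f`, and `α v^d` with `α > 0`, `d ≥ 1` is
an example of `G`. -/
theorem result :
    (∀ (g : ℕ) (f : ℕ → ℕ), LM f → ∀ (G : ℕ → ℝ) (d : ℝ), Expanding G d →
      ∀ κ θ B c : ℝ, 0 ≤ κ → d / 2 + κ < 1 → θ < B → B < 1 → 0 ≤ c → c < 2 * B - 1 →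
      ∃ N₀ : ℕ, ∀ N : ℕ, N₀ ≤ N → ∀ (t : ℂ) (γ : Fin g → ℂ), Transcendental ℚ t →
        ({m : ℕ | 1 ≤ m ∧ m ≤ N ∧ ¬ ∀ w : ℕ, Comb f B θ N m w → ∀ n : ℕ, 1 ≤ n → |(n : ℝ) - G w| ≤ (w : ℝ) ^ κ →
          t ^ n ∉ Forms γ}.ncard : ℝ) ≤ N * Real.exp (-(Real.log N ^ c))) ∧
    (Transcendental ℚ (Complex.exp 1) ∧ Transcendental ℚ (1 / (Real.pi : ℂ))) ∧
    (LM Nat.totient ∧ LM (fun m => ∑ d ∈ m.divisors, d)) ∧
    (∀ α d : ℝ, 0 < α → 1 ≤ d → Expanding (fun v => α * (v : ℝ) ^ d) d) ∧
    (∀ (f : ℕ → ℕ) (B θ : ℝ) (N m s t : ℕ), s ∣ f m → t ∣ f m →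
      (Real.exp (Real.log N ^ B) ≤ ((s + t : ℕ) : ℝ) → Comb f B θ N m (s + t)) ∧
      (Real.exp (Real.log N ^ B) ≤ ((s - t : ℕ) : ℝ) → Comb f B θ N m (s - t)) ∧
      (Real.exp (Real.log N ^ B) ≤ (s : ℝ) → Comb f B θ N m s)) ∧
    ∀ (B θ : ℝ) (N m : ℕ) (x y : (ZMod m)ˣ),
      (Real.exp (Real.log N ^ B) ≤ ((orderOf x + orderOf y : ℕ) : ℝ) → Comb Nat.totient B θ N m (orderOf x + orderOf y)) ∧
      (Real.exp (Real.log N ^ B) ≤ ((orderOf x - orderOf y : ℕ) : ℝ) → Comb Nat.totient B θ N m (orderOf x - orderOf y)) := by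
  refine ⟨?_, ⟨Pool.Agent.H340R2.LW.transcendental_exp_one_complex, fun h => ?_⟩, ⟨lm_totient, lm_sigma⟩,
    fun α d hα hd => expanding_pow hα hd, fun f B θ N m s t hs ht => comb_pm hs ht,
    fun B θ N m x y => comb_orders x y⟩
  · intro g f hf G d hG κ θ B c hκ h1 hθ hB hc hcb
    obtain ⟨N₁, hN₁⟩ := comb_scale_nat (s := 1 / 2) (C := 3 + g) (by norm_num) 1 0 hf hG hκ (by linarith) hθ hB hc hcb
    exact ⟨N₁, fun N hN t γ ht => hN₁ (fun _ n => t ^ n ∈ Forms γ) (fun n => t ^ n ∈ Forms γ)
      (fun M hM => count γ ht M hM) (fun n M _ _ _ _ h => h) N hN⟩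
  · have h1 := h.inv
    rw [one_div, inv_inv] at h1
    exact Pool.Agent.H340R2.LW.transcendental_pi_complex h1

end Pool.Agent.Results.MP_725b61_nt.DivisorSums
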