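import Pool.Agent.U543.CnFin

/-!
# `1 / π`, `e`, Euler's constant and the periods of many curves, at the points of arbitrary small sets

Polynomials with algebraic coefficients in the periods of algebraic forms on varieties over the algebraic numbers are
periods in the sense of Kontsevich and Zagier. Is one of the numbers `e`, `1 / π`, `γ` of this kind? Let `P(s)` be the
periods of the fibre at `s` of a family with symplectic monodromy, for example of the curve `y² = ∏ (x - e_r)` with branch
points `s = (e_r)`. We consider polynomials in the periods `P(s_1), …, P(s_k)` of MANY fibres, `k = ω(T) → ∞`, at points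
`s_j` of height at most `T` from ARBITRARY sets `S_j` of at least `T^(2 / k) N^(|X| - 1)` points (for one-parameter families
over `ℚ`: arbitrary sets of `T^o(1)` rational numbers). For almost all tuples, in degrees up to `k` and heights up to `T^k`:
`1 / π` is not integral over the ring of the polynomials in the periods; numbers like `e`, `γ` can be values only by
monomials which have even degree in each of the matrices; given numbers which are algebraically independent over `ℚ(π)`
are algebraically independent over the ring of the polynomials in the periods; and all relations between given numbers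
`z_a`, `π` and the periods of the `k` fibres come from relations between the `z_a` and `π` and from the torsors of periods.
-/

namespace Pool.Agent.Results.MP_725b61_nt.ManyFibresArbitrarySets

open Filter Pool.Agent Pool.Agent.Y890.MV Pool.Agent.Y890.SM Pool.Agent.U543.CN
open Pool.Agent.U543.TU (Pts)

/-- (1) Let `F` be a family with symplectic monodromy over an open subset `U` of `ℂ ^ X`. There is `ω → ∞` such that for
all large `T`, with `k = ω T`, all number fields `K` of degree at most `k`, embedded in `ℂ`, all complex numbers
`z_1, …, z_k` (for instance with `z_1 = e`, `z_2 = γ`) and ARBITRARY finite sets `S_1, …, S_k` of points of `U` with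
coordinates in `K` of height at most `T`, of norm at most `k` and at distance at least `1 / k` from the complement of `U`
(`Pts`): with at most `T ^ (1 / k) * N ^ (|X| - 1) * ∑ j, ∏ l ≠ j, |S_l|` exceptions, `N` the number of elements of `K` of
height at most `T`, all tuples `(s_1, …, s_k)` in `S_1 × … × S_k` are clean. If all `|S_j|` are at least
`T ^ (2 / k) * N ^ (|X| - 1)`, then at most the proportion `1 / k` of the tuples is exceptional. `Clean` means, for relations
`Φ(P(s_1), …, P(s_k), z, π) = 0` of degree at most `k` in each variable over the integers of `K`, with conjugates of the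
coefficients at most `T ^ k`: (rel) they hold at all `(Y_1, …, Y_k, ζ, ν)` with `(ζ, ν)` in the Zariski closure over `ℚ̄`
of `(z, π)` and all `(Y_j, 2 i ν)` in the torsor of periods at `s_j`; (inv) `1 / π` is not integral over the ring of the
polynomials in the periods, and if all weights are positive then the constant terms of the relations are `0`; both also
with polynomials in `z` as coefficients, if `π` is transcendental over `ℚ(z)`; (odd) the part of `Φ` with given parities
of the degrees in all the matrices `Y_{j,i}` vanishes too; (free) if the `z_a` are algebraically independent over `ℚ(π)`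
then they are algebraically independent over the ring of the polynomials in the periods.
(2) The period matrices of all products of hyperelliptic curves `y² = ∏ (x - e i r)`, `r ≤ n i`, `n i` even, with branch
points `e i r` of increasing real parts, are such a family, with `w i = 1`. -/
theorem result :
    (∀ (X : Type) [Fintype X] [DecidableEq X] [Nonempty X] (ι : Type) [Fintype ι] [DecidableEq ι] (n : ι → ℕ)
      (F : SympFam X n),
      ∃ (ω : ℝ → ℕ) (T₀ : ℝ), Tendsto ω atTop atTop ∧ Monotone ω ∧ ∀ T, T₀ ≤ T → 0 < ω T ∧
        ∀ (K : Type) [Field K] [NumberField K], Module.finrank ℚ K ≤ ω T → ∀ (io : K →+* ℂ) (z : Fin (ω T) → ℂ)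
          (S : Fin (ω T) → Finset (X → K)), (∀ j, (S j : Set (X → K)) ⊆ Pts F (ω T) K io T) →
          {s | (∀ j, s j ∈ S j) ∧ ¬ Clean F (ω T) K io z T s}.Finite ∧
          ({s | (∀ j, s j ∈ S j) ∧ ¬ Clean F (ω T) K io z T s}.ncard : ℝ) ≤
            T ^ ((ω T : ℝ)⁻¹) * ({x : K | Y120.HtLe K T x}.ncard : ℝ) ^ (Fintype.card X - 1) *
              ∑ j, ∏ l ∈ Finset.univ.erase j, ((S l).card : ℝ) ∧
          ((∀ j, (T ^ ((ω T : ℝ)⁻¹)) ^ 2 * ({x : K | Y120.HtLe K T x}.ncard : ℝ) ^ (Fintype.card X - 1) ≤
              ((S j).card : ℝ)) →
            ({s | (∀ j, s j ∈ S j) ∧ ¬ Clean F (ω T) K io z T s}.ncard : ℝ) ≤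
              (ω T : ℝ)⁻¹ * ∏ j, ((S j).card : ℝ))) ∧
    ∀ (ι : Type) [Fintype ι] [DecidableEq ι] (n : ι → ℕ), (∀ i, Even (n i)) →
      ∃ F : SympFam (Σ i, Fin (n i + 1)) n, F.U = Y890.HE.Conf n ∧ (∀ i, F.w i = 1) ∧
        ∀ i e, F.P i e = Y890.HE.pm n e i :=
  ⟨fun _ _ _ _ _ _ _ _ F => main_clean F, fun _ _ _ n hn => ⟨hyp n hn, rfl, fun _ => rfl, fun _ _ => rfl⟩⟩

end Pool.Agent.Results.MP_725b61_nt.ManyFibresArbitrarySets
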