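import Pool.Agent.U534.SymG

/-!
# `e`, `1 / π`, Euler's constant and the periods of all curves of infinite sequences: relations without height conditions

Polynomials with algebraic coefficients in the periods of the algebraic forms on curves over the algebraic numbers are
periods in the sense of Kontsevich and Zagier. Is one of the numbers `e`, `1 / π`, `γ` of this kind? We consider infinite
sequences of explicit hyperelliptic curves: let `F_0, F_1, …` be families `y² = f_j(x) (x - 1 / t)`, `f_j` in `ℚ[x]` monic of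
degree `2 g_j` with distinct real roots different from `0`. For given complex numbers `z_0, z_1, …` (for instance an
enumeration of the algebraic closure of the field `ℚ(e, π, γ)`) we show that there are sparse sets `E_j(t_0, …, t_(j-1))`, which
depend only on the parameters chosen before, such that for EVERY sequence `t` which avoids them (from some `j₀` on) the
following is true, with `C_j` the curve of the family `F_j` with the parameter `t_j` (the family `F_j` may also depend on the
earlier parameters): for all number fields `K` and all `d`, `i`, for all curves `C_j`, `j ∈ {s_1 < … < s_k}`, for which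
`s_1` is at least `j₀`, `d`, `i` and the degree of `K`, and without any condition on the height of coefficients:

* `rel` : ALL relations of degree at most `d` over `K` between `2πi`, the numbers `z_0, …, z_(i-1)` and the periods of the
  `k` curves (`4 g_j²` for each curve) hold at all points of the product of the torsors `Y pol Yᵀ = 2πi polB` of the Riemann
  relations;
* `int` : a number `z_a` which is integral over the ring of the polynomials in `2πi` and the periods (by an equation of
  degree at most `d` over `K`) is integral over `K[2πi]`, by an equation of the same degree; in particular it is not `1 / π`.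
  So `1 / π` is neither a polynomial in `2πi` and the periods nor integral over these polynomials;
* `odd` : if `z_a` is a polynomial in `2πi` and the periods, all monomials of which have odd degree in the periods of at least
  one of the curves, then `z_a = 0`. This includes `e` and `γ`;
* `trans` : if `z_a` is transcendental, then it satisfies no algebraic equation whose coefficients are homogeneous
  polynomials, of the same weight, in the periods (of the weight `1`) and `2πi` (of the weight `2`). This includes `e` and `1 / π`;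
* `hom` : more generally, polynomials in the `z_a` which are linearly independent over `K` are linearly independent over these
  homogeneous polynomials;
* `free` : polynomials in the `z_a` which are linearly independent over `K(π)` are linearly independent over the ring of all
  polynomials in `2πi` and the periods.

The definitions of the curves, the periods and the torsors are those of `Pool.Agent.U534.SymF`.
-/

set_option autoImplicit false

open Matrix Module

namespace Pool.Agent.Results.MP_725b61_nt.SequencesOfCurves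

open Pool.Agent.U534.SymF

/-- the value of a polynomial at `2πi` (the variable `none`) and at the matrices `Y l` -/
noncomputable def ev {K : Subfield ℂ} {k : ℕ} {n : Fin k → ℕ} (Y : ∀ l, Matrix (Fin (n l)) (Fin (n l)) ℂ)
    (R : MvPolynomial (Option (Σ l, Fin (n l) × Fin (n l))) K) : ℂ :=
  MvPolynomial.aeval (fun o => o.elim (2 * Real.pi * Complex.I : ℂ) fun v => Y v.1 v.2.1 v.2.2) R

/-- the value of a polynomial at `2πi` (the variable `none`), the numbers `z a` and the matrices `Y l` -/
noncomputable def evz {K : Subfield ℂ} {i k : ℕ} {n : Fin k → ℕ} (z : ℕ → ℂ) (Y : ∀ l, Matrix (Fin (n l)) (Fin (n l)) ℂ)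
    (G : MvPolynomial (Option (Fin i) ⊕ Σ l, Fin (n l) × Fin (n l)) K) : ℂ :=
  MvPolynomial.aeval (Sum.elim (fun o : Option (Fin i) => o.elim (2 * Real.pi * Complex.I : ℂ) fun a => z a)
    fun v => Y v.1 v.2.1 v.2.2) G

/-- homogeneous polynomials of the weight `w`: `2πi` has the weight `2`, the entries of the matrices have the weight `1` -/
def Hom {K : Subfield ℂ} {k : ℕ} {n : Fin k → ℕ} (w : ℕ) (R : MvPolynomial (Option (Σ l, Fin (n l) × Fin (n l))) K) : Prop :=
  R.IsWeightedHomogeneous (fun o => o.elim 2 fun _ => 1) w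

/-- the relations of degree at most `d` over `K` between `2πi`, the numbers `z 0, …, z (i - 1)` and the periods of the members
of the families `C l` with the parameters `u l` -/
structure Clean {k : ℕ} (C : Fin k → Family) (u : Fin k → ℕ) (K : Subfield ℂ) (d i : ℕ) (z : ℕ → ℂ) : Prop where
  /-- all relations hold on the torsor of the Riemann relations -/
  rel : ∀ G : MvPolynomial (Option (Fin i) ⊕ Σ l, Fin (2 * (C l).g) × Fin (2 * (C l).g)) K, G.totalDegree ≤ d →
    evz z (fun l => (C l).per (u l)) G = 0 → ∀ Y : (∀ l, Matrix (Fin (2 * (C l).g)) (Fin (2 * (C l).g)) ℂ),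
      (∀ l, Y l ∈ (C l).Tor (u l)) → evz z Y G = 0
  /-- integral numbers -/
  int : ∀ (a : Fin i) (m : ℕ) (R : Fin m → MvPolynomial (Option (Σ l, Fin (2 * (C l).g) × Fin (2 * (C l).g))) K), m ≤ d →
    (∀ b : Fin m, (b : ℕ) + (R b).totalDegree ≤ d) →
      z a ^ m + ∑ b : Fin m, z a ^ (b : ℕ) * ev (fun l => (C l).per (u l)) (R b) = 0 →
      (∃ p : Fin m → Polynomial K,
        z a ^ m + ∑ b : Fin m, z a ^ (b : ℕ) * Polynomial.aeval (2 * Real.pi * Complex.I : ℂ) (p b) = 0) ∧
        z a ≠ 1 / Real.pi
  /-- odd polynomials -/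
  odd : ∀ (a : Fin i) (R : MvPolynomial (Option (Σ l, Fin (2 * (C l).g) × Fin (2 * (C l).g))) K), 1 ≤ d → R.totalDegree ≤ d →
    (∀ m, R.coeff m ≠ 0 → ∃ l, Odd (∑ v : Fin (2 * (C l).g) × Fin (2 * (C l).g), m (some ⟨l, v⟩))) →
      z a = ev (fun l => (C l).per (u l)) R → z a = 0
  /-- equations with homogeneous coefficients -/
  trans : ∀ (a : Fin i), Transcendental ℚ (z a) →
    ∀ (m w : ℕ) (R : Fin m → MvPolynomial (Option (Σ l, Fin (2 * (C l).g) × Fin (2 * (C l).g))) K),
      (∀ b : Fin m, (b : ℕ) + (R b).totalDegree ≤ d) → (∀ b, Hom w (R b)) →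
        ∑ b : Fin m, z a ^ (b : ℕ) * ev (fun l => (C l).per (u l)) (R b) = 0 →
          ∀ b, ∀ Y : (∀ l, Matrix (Fin (2 * (C l).g)) (Fin (2 * (C l).g)) ℂ), (∀ l, Y l ∈ (C l).Tor (u l)) → ev Y (R b) = 0
  /-- linear independence over the homogeneous polynomials -/
  hom : ∀ (r w : ℕ) (N : Fin r → MvPolynomial (Fin i) K)
    (R : Fin r → MvPolynomial (Option (Σ l, Fin (2 * (C l).g) × Fin (2 * (C l).g))) K),
      (∀ a, (N a).totalDegree + (R a).totalDegree ≤ d) → (∀ b, Hom w (R b)) →
        LinearIndependent K (fun a => MvPolynomial.aeval (fun b : Fin i => z b) (N a)) →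
          ∑ a, MvPolynomial.aeval (fun b : Fin i => z b) (N a) * ev (fun l => (C l).per (u l)) (R a) = 0 →
          ∀ b, ∀ Y : (∀ l, Matrix (Fin (2 * (C l).g)) (Fin (2 * (C l).g)) ℂ), (∀ l, Y l ∈ (C l).Tor (u l)) → ev Y (R b) = 0
  /-- linear independence over all polynomials -/
  free : ∀ (r : ℕ) (N : Fin r → MvPolynomial (Fin i) K)
    (R : Fin r → MvPolynomial (Option (Σ l, Fin (2 * (C l).g) × Fin (2 * (C l).g))) K),
      (∀ a, (N a).totalDegree + (R a).totalDegree ≤ d) →
        (∀ p : Fin r → Polynomial K, ∑ a, MvPolynomial.aeval (fun b : Fin i => z b) (N a) *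
          Polynomial.aeval (2 * Real.pi * Complex.I : ℂ) (p a) = 0 → p = 0) →
          ∑ a, MvPolynomial.aeval (fun b : Fin i => z b) (N a) * ev (fun l => (C l).per (u l)) (R a) = 0 →
          ∀ b, ∀ Y : (∀ l, Matrix (Fin (2 * (C l).g)) (Fin (2 * (C l).g)) ℂ), (∀ l, Y l ∈ (C l).Tor (u l)) → ev Y (R b) = 0

section proof

open Pool.Agent.U534.Sym Pool.Agent.TH127.PT Pool.Agent.Y123.GN Pool.Agent.Y113 Pool.Agent.Y118.HP Pool.Agent.Y118.HG

theorem dc_map {L : Subfield ℂ} {σ : Type} {d : ℕ} {F : MvPolynomial σ L} (hF : F.totalDegree ≤ d) :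
    DC d (KS L) (MvPolynomial.map (algebraMap L ℂ) F) :=
  ⟨(Finset.sup_mono (MvPolynomial.support_map_subset _ _)).trans hF, fun s => by
    rw [MvPolynomial.coeff_map]
    exact (F.coeff s).2⟩

theorem alg_of {K : Subfield ℂ} (hKf : FiniteDimensional ℚ K) : ∀ x ∈ K, IsAlgebraic ℚ x := by
  intro x hx
  have : NumberField K := { to_charZero := inferInstance, to_finiteDimensional := hKf }
  have h6 : IsAlgebraic ℚ (⟨x, hx⟩ : K) := Algebra.IsAlgebraic.isAlgebraic _
  exact h6.algebraMap (A := ℂ)

theorem ev_map {K : Subfield ℂ} {k : ℕ} {n : Fin k → ℕ} (Y : ∀ l, Matrix (Fin (n l)) (Fin (n l)) ℂ)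
    (R : MvPolynomial (Option (Σ l, Fin (n l) × Fin (n l))) K) :
    MvPolynomial.aeval (vz (2 * Real.pi * Complex.I : ℂ) Y) (MvPolynomial.map (algebraMap K ℂ) R) = ev Y R := by
  rw [MvPolynomial.aeval_map_algebraMap]
  rfl

theorem hom_map {K : Subfield ℂ} {k : ℕ} {n : Fin k → ℕ} {w : ℕ} {R : MvPolynomial (Option (Σ l, Fin (n l) × Fin (n l))) K}
    (h : Hom w R) : (MvPolynomial.map (algebraMap K ℂ) R).IsWeightedHomogeneous (wt (n := n)) w := by
  intro m hm
  refine h (d := m) fun h0 => hm ?_
  rw [MvPolynomial.coeff_map, h0, map_zero]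

theorem clean_of {k : ℕ} {C : Fin k → Family} {u : Fin k → ℕ} {K : Subfield ℂ} {d i : ℕ} {z : ℕ → ℂ}
    (hK : FiniteDimensional ℚ K) (hP : ∀ l, (C l).per (u l) ∈ (C l).Tor (u l))
    (hrel : Rel1 K d (cz (2 * Real.pi * Complex.I) (zi z i)) (2 * Real.pi * Complex.I)
        (n := fun l => 2 * (C l).g) (fun l => (C l).per (u l)) (fun l => (C l).q (u l)) (fun l => jm ℂ (2 * (C l).g))) :
    Clean C u K d i z := by
  classical
  have hKalg := alg_of hK
  have hϖ : (2 * Real.pi * Complex.I : ℂ) ≠ 0 := Pool.Agent.Y123.GN.tpi_ne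
  have hQK : ∀ l a b, (C l).q (u l) a b ∈ K := fun l a b => q_mem _ _ K a b
  have hBK : ∀ l a b, jm ℂ (2 * (C l).g) a b ∈ K := fun l a b => jm_mem _ K a b
  have hB : ∀ l, Spf (jm ℂ (2 * (C l).g)) := fun l => jm_spf _
  have hZ : ∀ l, (C l).per (u l) * (C l).q (u l) * ((C l).per (u l))ᵀ = (2 * Real.pi * Complex.I : ℂ) • jm ℂ (2 * (C l).g) :=
    fun l => (tor_iff _ _ _).1 (hP l)
  have hQ : ∀ l, Spf ((C l).q (u l)) := fun l => (spf_of hϖ (hB l) (hZ l)).1
  have hlinZ : ∀ (r : ℕ) (N : Fin r → MvPolynomial (Fin i) K)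
      (R : Fin r → MvPolynomial (Option (Σ l, Fin (2 * (C l).g) × Fin (2 * (C l).g))) K),
      (∀ a, (N a).totalDegree + (R a).totalDegree ≤ d) →
      ∑ a, MvPolynomial.aeval (fun b : Fin i => z b) (N a) * ev (fun l => (C l).per (u l)) (R a) = 0 →
      ∀ Y : (∀ l, Matrix (Fin (2 * (C l).g)) (Fin (2 * (C l).g)) ℂ),
        (∀ l, Y l * (C l).q (u l) * (Y l)ᵀ = (2 * Real.pi * Complex.I : ℂ) • jm ℂ (2 * (C l).g)) →
        ∑ a, MvPolynomial.aeval (fun b : Fin i => z b) (N a) * ev Y (R a) = 0 := by
    intro r N R hd h0 Y hY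
    have h1 := lin_relZ hrel (a := fun a => (N a).totalDegree) (b := fun a => (R a).totalDegree) hd
      (P := fun a => MvPolynomial.map (algebraMap K ℂ) (N a)) (R := fun a => MvPolynomial.map (algebraMap K ℂ) (R a))
      (fun a => dc_map le_rfl) (fun a => dc_map le_rfl) (by
        simp only [MvPolynomial.aeval_map_algebraMap]
        exact h0) hY
    simp only [MvPolynomial.aeval_map_algebraMap] at h1
    exact h1
  have hhom : ∀ (r w : ℕ) (N : Fin r → MvPolynomial (Fin i) K)
    (R : Fin r → MvPolynomial (Option (Σ l, Fin (2 * (C l).g) × Fin (2 * (C l).g))) K),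
      (∀ a, (N a).totalDegree + (R a).totalDegree ≤ d) → (∀ b, Hom w (R b)) →
        LinearIndependent K (fun a => MvPolynomial.aeval (fun b : Fin i => z b) (N a)) →
          ∑ a, MvPolynomial.aeval (fun b : Fin i => z b) (N a) * ev (fun l => (C l).per (u l)) (R a) = 0 →
          ∀ b, ∀ Y : (∀ l, Matrix (Fin (2 * (C l).g)) (Fin (2 * (C l).g)) ℂ), (∀ l, Y l ∈ (C l).Tor (u l)) → ev Y (R b) = 0 := by
    intro r w N R hd hw hli h0 b Y hY
    have h1 := indep_hom2 (K := K) hϖ hQK hBK hQ hB (fun a => MvPolynomial.aeval (fun b : Fin i => z b) (N a)) (v := w)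
      (fun κ hκ hs a => by
        have h2 := (Fintype.linearIndependent_iff.1 hli) (fun a => ⟨κ a, hκ a⟩) (by
          rw [← hs]
          refine Finset.sum_congr rfl fun a _ => ?_
          rw [Subfield.smul_def, smul_eq_mul]
          exact mul_comm _ _) a
        exact congrArg Subtype.val h2)
      (R := fun a => MvPolynomial.map (algebraMap K ℂ) (R a)) (fun a m => (dc_map (F := R a) le_rfl).2 m)
      (fun a => hom_map (hw a)) (fun Y hY => by
        simp only [ev_map]
        exact hlinZ r N R hd h0 Y hY) b (Y := Y) (fun l => (tor_iff _ _ _).1 (hY l))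
    rw [ev_map] at h1
    exact h1
  refine ⟨?_, ?_, ?_, ?_, hhom, ?_⟩
  · intro G hG h0 Y hY
    have h1 := hrel (MvPolynomial.map (algebraMap K ℂ) G) (dc_map hG) (by
      rw [MvPolynomial.aeval_map_algebraMap]
      exact h0) Y (fun l => (tor_iff _ _ _).1 (hY l))
    rw [MvPolynomial.aeval_map_algebraMap] at h1
    exact h1
  · intro a m R hm hR h0
    have hall := hlinZ (m + 1) (fun b => MvPolynomial.X a ^ (b : ℕ)) (Fin.snoc (α := fun _ =>
      MvPolynomial (Option (Σ l, Fin (2 * (C l).g) × Fin (2 * (C l).g))) K) R 1) (fun b => by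
        refine Fin.lastCases ?_ (fun b => ?_) b
        · rw [Fin.snoc_last, MvPolynomial.totalDegree_one, MvPolynomial.totalDegree_X_pow]
          simpa using hm
        · rw [Fin.snoc_castSucc, MvPolynomial.totalDegree_X_pow]
          exact hR b) (by
        rw [Fin.sum_univ_castSucc]
        simp only [Fin.snoc_castSucc, Fin.snoc_last, map_pow, MvPolynomial.aeval_X, Fin.val_castSucc, Fin.val_last]
        have h1 : ev (K := K) (fun l => (C l).per (u l)) 1 = 1 := map_one _
        rw [h1, mul_one, add_comm]
        exact h0)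
    choose A₁ A₂ hA₁ hA₂ hA using fun l => sect (hB l) (hQ l) (hBK l) (hQK l)
    choose p hp using fun b => line_poly' hA₁ hA₂ (h := fun l => 1) (fun l a b => by
      rw [Matrix.one_apply]
      split_ifs
      · exact K.one_mem
      · exact K.zero_mem) (G := MvPolynomial.map (algebraMap K ℂ) (R b)) (fun m => (dc_map (F := R b) le_rfl).2 m)
    have h1 := hall (fun l => ((2 * Real.pi * Complex.I : ℂ) • A₁ l + A₂ l) * 1) (fun l => by
      rw [Matrix.mul_one]
      exact hA l _)
    rw [Fin.sum_univ_castSucc] at h1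
    simp only [Fin.snoc_castSucc, Fin.snoc_last, map_pow, MvPolynomial.aeval_X, Fin.val_castSucc, Fin.val_last] at h1
    have h2 : ev (K := K) (fun l => ((2 * Real.pi * Complex.I : ℂ) • A₁ l + A₂ l) * 1) 1 = 1 := map_one _
    rw [h2, mul_one, add_comm] at h1
    have h3 : z a ^ m + ∑ b : Fin m, z a ^ (b : ℕ) * Polynomial.aeval (2 * Real.pi * Complex.I : ℂ) (p b) = 0 := by
      rw [← h1]
      congr 1
      refine Finset.sum_congr rfl fun b _ => ?_
      rw [hp, ev_map]
    refine ⟨⟨p, h3⟩, fun h4 => ?_⟩
    rw [h4] at h3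
    exact not_int hKalg p h3
  · intro a R hd1 hR hodd h0
    have hall := hlinZ 2 ![MvPolynomial.X a, -1] ![1, R] (fun b => by
        fin_cases b
        · show (MvPolynomial.X a : MvPolynomial (Fin i) K).totalDegree + (1 : MvPolynomial _ K).totalDegree ≤ d
          rw [MvPolynomial.totalDegree_X, MvPolynomial.totalDegree_one]
          exact hd1
        · show (-1 : MvPolynomial (Fin i) K).totalDegree + R.totalDegree ≤ d
          rw [MvPolynomial.totalDegree_neg, MvPolynomial.totalDegree_one, zero_add]
          exact hR) (by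
        rw [Fin.sum_univ_two]
        simp only [Matrix.cons_val_zero, Matrix.cons_val_one, MvPolynomial.aeval_X, map_neg, map_one]
        have h1 : ev (K := K) (fun l => (C l).per (u l)) 1 = 1 := map_one _
        rw [h1, ← h0]
        ring)
    refine odd_zero (Z := fun l => (C l).per (u l)) (2 * Real.pi * Complex.I : ℂ) (z a) hZ
      (R := MvPolynomial.map (algebraMap K ℂ) R) (fun m hm => hodd m fun h1 => hm ?_) (fun Y hY => ?_)
    · rw [MvPolynomial.coeff_map, h1, map_zero]
    · have h1 := hall Y hY
      rw [Fin.sum_univ_two] at h1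
      simp only [Matrix.cons_val_zero, Matrix.cons_val_one, MvPolynomial.aeval_X, map_neg, map_one] at h1
      have h2 : ev (K := K) Y 1 = 1 := map_one _
      rw [h2] at h1
      rw [ev_map]
      linear_combination h1
  · intro a htr m w R hd hw h0 b Y hY
    have htrK : Transcendental K (z a) := fun halg => htr (by
      have : Algebra.IsAlgebraic ℚ K := ⟨fun x => by
        have : NumberField K := { to_charZero := inferInstance, to_finiteDimensional := hK }
        exact Algebra.IsAlgebraic.isAlgebraic _⟩
      exact halg.restrictScalars ℚ)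
    refine hhom m w (fun b => MvPolynomial.X a ^ (b : ℕ)) R (fun b => ?_) hw ?_ ?_ b Y hY
    · rw [MvPolynomial.totalDegree_X_pow]
      exact hd b
    · simp only [map_pow, MvPolynomial.aeval_X]
      rw [Fintype.linearIndependent_iff]
      intro κ hκ
      have h1 : ∑ b : Fin m, Polynomial.C (κ b) * Polynomial.X ^ (b : ℕ) = (0 : Polynomial K) := by
        by_contra hne
        refine htrK ⟨_, hne, ?_⟩
        rw [map_sum, ← hκ]
        refine Finset.sum_congr rfl fun b _ => ?_
        rw [map_mul, Polynomial.aeval_C, Polynomial.aeval_X_pow, Subfield.smul_def, smul_eq_mul]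
        rfl
      intro b
      have h2 := congrArg (fun q : Polynomial K => q.coeff (b : ℕ)) h1
      simp only [Polynomial.finsetSum_coeff, Polynomial.coeff_C_mul_X_pow, Polynomial.coeff_zero] at h2
      rw [Finset.sum_eq_single b (fun c _ hc => by
        rw [if_neg]
        intro h3
        exact hc (Fin.ext h3.symm)) (fun h3 => absurd (Finset.mem_univ _) h3), if_pos rfl] at h2
      exact h2
    · simp only [map_pow, MvPolynomial.aeval_X]
      exact h0
  · intro r N R hd hli h0 b Y hY
    have h1 := indep_pi2 (K := K) hϖ hQK hBK hQ hB (fun a => MvPolynomial.aeval (fun b : Fin i => z b) (N a))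
      (fun p hp a => by
        have h2 := hli p hp
        rw [h2]
        exact map_zero _)
      (R := fun a => MvPolynomial.map (algebraMap K ℂ) (R a)) (fun a m => (dc_map (F := R a) le_rfl).2 m)
      (fun Y hY => by
        simp only [ev_map]
        exact hlinZ r N R hd h0 Y hY) b (Y := Y) (fun l => (tor_iff _ _ _).1 (hY l))
    rw [ev_map] at h1
    exact h1

end proof

/-- **The theorem.** `F j τ` is the family for the index `j`, which may depend on the earlier parameters `τ = (t_0, …, t_(j-1))`.
There are `c j τ > 0` and `M j τ` such that for all complex numbers `z_0, z_1, …` there are exceptional sets `E j τ` with at most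
`M T^(1 - c)` elements up to `T`, for all `T`, such that for every sequence `t` with `t_j ∉ E_j(t_0, …, t_(j-1))` for `j ≥ j₀`:
the curves with `j ≥ j₀` are not degenerate, their periods satisfy the Riemann relations, and for every number field `K`, all
`d`, `i` and all `s_1 < … < s_k` which are at least `j₀`, `[K : ℚ]`, `d` and `i`, the `k` curves are clean: see `Clean`. -/
theorem result (F : ∀ j, (Fin j → ℕ) → Family) :
    ∃ c M : ∀ j, (Fin j → ℕ) → ℝ, (∀ j τ, 0 < c j τ) ∧ ∀ z : ℕ → ℂ, ∃ E : (∀ j, (Fin j → ℕ) → Set ℕ),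
      (∀ j τ (T : ℕ), 1 ≤ T → ((E j τ ∩ Set.Icc 1 T).ncard : ℝ) ≤ M j τ * (T : ℝ) ^ (1 - c j τ)) ∧
      ∀ (t : ℕ → ℕ) (j₀ : ℕ), (∀ j, j₀ ≤ j → t j ∉ E j fun a => t a) →
        (∀ j, j₀ ≤ j → StrictMono (branch (F j fun a => t a).a (F j fun a => t a).m (1 / (t j : ℝ))) ∧
          (F j fun a => t a).per (t j) ∈ (F j fun a => t a).Tor (t j)) ∧
        ∀ (K : Subfield ℂ), FiniteDimensional ℚ K → ∀ (d i k : ℕ) (s : Fin k → ℕ), StrictMono s →
          (∀ l, j₀ ≤ s l ∧ finrank ℚ K ≤ s l ∧ d ≤ s l ∧ i ≤ s l) →
            Clean (fun l => F (s l) fun a => t a) (fun l => t (s l)) K d i z := by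
  obtain ⟨c, M, hc, hM⟩ := exH_count F
  refine ⟨c, M, hc, fun z => ⟨ExH F z, hM z, fun t j₀ ht => ?_⟩⟩
  have hG : ∀ j, j₀ ≤ j → Gd (F j fun a => t a) (j * j ^ j) (cH F z j fun a => t a) (t j) := by
    intro j hj
    by_contra hcon
    exact ht j hj hcon
  refine ⟨fun j hj => ⟨(hG j hj).1, (hG j hj).2.1⟩, ?_⟩
  intro K hK d i k s hs h0
  exact clean_of hK (fun l => (hG _ (h0 l).1).2.1) (seqH F (t := t) (j₀ := j₀) ht hK d i k s hs (fun l => (h0 l).1)
    (fun l => (h0 l).2.1) (fun l => (h0 l).2.2.1) (fun l => (h0 l).2.2.2))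

end Pool.Agent.Results.MP_725b61_nt.SequencesOfCurves
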